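import Mathlib

/-!
# The field of Laurent series in `1/T` over a finite field: absolute value, heights
-/

set_option autoImplicit false
set_option linter.unusedSectionVars false

open Polynomial

namespace Pool.Agent.V11270.LS

variable {F : Type} [Field F] [Fintype F]

/-- The embedding of `F[T]` into the series field, sending `T` to the inverse of the uniformizer;
the uniformizer plays the role of `1/T`. -/
noncomputable def emb (F : Type) [Field F] : F[X] →+* LaurentSeries F :=
  (Polynomial.aeval (HahnSeries.single (-1 : ℤ) (1 : F)) : F[X] →ₐ[F] LaurentSeries F).toRingHom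

/-- The absolute value `|ξ| = q ^ (-N)` where `N` is the order of `ξ` in `1/T`, `q = #F`. -/
noncomputable def absv (x : LaurentSeries F) : ℝ :=
  open Classical in if x = 0 then 0 else (Fintype.card F : ℝ) ^ (-x.order)

/-- The height of a polynomial in `F[T][X]`: the maximum of the absolute values of its
coefficients. -/
noncomputable def height (A : F[X][X]) : ℝ := ⨆ i : ℕ, absv (emb F (A.coeff i))

theorem one_lt_card : (1 : ℝ) < (Fintype.card F : ℝ) := by
  exact_mod_cast Fintype.one_lt_card

theorem card_pos' : (0 : ℝ) < (Fintype.card F : ℝ) := by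
  have := one_lt_card (F := F)
  linarith

@[simp] theorem absv_zero : absv (0 : LaurentSeries F) = 0 := by simp [absv]

theorem absv_of_ne {x : LaurentSeries F} (hx : x ≠ 0) :
    absv x = (Fintype.card F : ℝ) ^ (-x.order) := by simp [absv, hx]

theorem absv_pos {x : LaurentSeries F} (hx : x ≠ 0) : 0 < absv x := by
  rw [absv_of_ne hx]
  exact zpow_pos card_pos' _

theorem absv_nonneg (x : LaurentSeries F) : 0 ≤ absv x := by
  by_cases hx : x = 0
  · rw [hx, absv_zero]
  · exact (absv_pos hx).le

theorem absv_eq_zero {x : LaurentSeries F} : absv x = 0 ↔ x = 0 := by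
  constructor
  · intro h
    by_contra hx
    exact (absv_pos hx).ne' h
  · rintro rfl
    exact absv_zero

theorem absv_mul (x y : LaurentSeries F) : absv (x * y) = absv x * absv y := by
  by_cases hx : x = 0
  · simp [hx]
  by_cases hy : y = 0
  · simp [hy]
  rw [absv_of_ne hx, absv_of_ne hy, absv_of_ne (mul_ne_zero hx hy), HahnSeries.order_mul hx hy,
    neg_add, zpow_add₀ card_pos'.ne']

theorem absv_one : absv (1 : LaurentSeries F) = 1 := by
  rw [absv_of_ne one_ne_zero, HahnSeries.order_one]
  simp

theorem absv_pow (x : LaurentSeries F) (n : ℕ) : absv (x ^ n) = absv x ^ n := by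
  induction n with
  | zero => simp [absv_one]
  | succ n ih => rw [pow_succ, pow_succ, absv_mul, ih]

theorem absv_neg (x : LaurentSeries F) : absv (-x) = absv x := by
  by_cases hx : x = 0
  · simp [hx]
  rw [absv_of_ne hx, absv_of_ne (neg_ne_zero.mpr hx), HahnSeries.order_neg]

theorem absv_add_le (x y : LaurentSeries F) : absv (x + y) ≤ max (absv x) (absv y) := by
  by_cases hx : x = 0
  · simp [hx]
  by_cases hy : y = 0
  · simp [hy]
  by_cases hxy : x + y = 0
  · rw [hxy, absv_zero]
    exact le_max_of_le_left (absv_nonneg x)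
  rw [absv_of_ne hx, absv_of_ne hy, absv_of_ne hxy]
  have h := HahnSeries.min_order_le_order_add hxy
  rcases min_le_iff.mp h with h | h
  · exact le_max_of_le_left (zpow_le_zpow_right₀ one_lt_card.le (by omega))
  · exact le_max_of_le_right (zpow_le_zpow_right₀ one_lt_card.le (by omega))

theorem absv_sub_comm (x y : LaurentSeries F) : absv (x - y) = absv (y - x) := by
  rw [← absv_neg, neg_sub]

theorem absv_sub_le (x y : LaurentSeries F) : absv (x - y) ≤ max (absv x) (absv y) := by
  rw [sub_eq_add_neg, ← absv_neg y]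
  exact absv_add_le _ _

/-- If `|x| ≤ B` fails but `|x - y| < |x|` holds then `|y| = |x|`; here as a lower bound. -/
theorem absv_le_of_sub_lt {x y : LaurentSeries F} (h : absv (x - y) < absv x) :
    absv x ≤ absv y := by
  have h1 : x = (x - y) + y := by ring
  have h2 := absv_add_le (x - y) y
  rw [← h1] at h2
  rcases le_max_iff.mp h2 with h3 | h3
  · linarith
  · exact h3

theorem absv_sum_le {ι : Type*} (s : Finset ι) (f : ι → LaurentSeries F) {B : ℝ} (hB : 0 ≤ B)
    (h : ∀ i ∈ s, absv (f i) ≤ B) : absv (∑ i ∈ s, f i) ≤ B := by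
  classical
  induction s using Finset.induction_on with
  | empty => simpa using hB
  | insert a s ha ih =>
    rw [Finset.sum_insert ha]
    exact (absv_add_le _ _).trans (max_le (h a (Finset.mem_insert_self a s))
      (ih fun i hi => h i (Finset.mem_insert_of_mem hi)))

/-! ### The embedding -/

theorem emb_X : emb F X = HahnSeries.single (-1 : ℤ) (1 : F) := by
  show Polynomial.aeval _ _ = _
  rw [aeval_X]

theorem emb_C (c : F) : emb F (C c) = HahnSeries.C c := by
  show Polynomial.aeval _ _ = _
  rw [aeval_C]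
  exact LaurentSeries.algebraMap_apply F c

theorem single_pow' (n : ℕ) :
    (HahnSeries.single (-1 : ℤ) (1 : F)) ^ n = HahnSeries.single (-(n : ℤ)) (1 : F) := by
  rw [HahnSeries.single_pow]
  simp

theorem emb_X_pow (n : ℕ) : emb F (X ^ n) = HahnSeries.single (-(n : ℤ)) (1 : F) := by
  rw [map_pow, emb_X, single_pow']

theorem emb_C_mul_X_pow (c : F) (n : ℕ) :
    emb F (C c * X ^ n) = HahnSeries.single (-(n : ℤ)) c := by
  rw [map_mul, emb_C, emb_X_pow, HahnSeries.C_apply, HahnSeries.single_mul_single]
  simp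

theorem absv_single {a : ℤ} {c : F} (hc : c ≠ 0) :
    absv (HahnSeries.single a c) = (Fintype.card F : ℝ) ^ (-a) := by
  rw [absv_of_ne (HahnSeries.single_ne_zero hc), HahnSeries.order_single hc]

theorem emb_eq_sum (P : F[X]) :
    emb F P = ∑ i ∈ Finset.range (P.natDegree + 1), HahnSeries.single (-(i : ℤ)) (P.coeff i) := by
  conv_lhs => rw [P.as_sum_range_C_mul_X_pow]
  rw [map_sum]
  exact Finset.sum_congr rfl fun i _ => emb_C_mul_X_pow _ _

theorem absv_emb {P : F[X]} (hP : P ≠ 0) :
    absv (emb F P) = (Fintype.card F : ℝ) ^ P.natDegree := by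
  have h1 : absv (HahnSeries.single (-(P.natDegree : ℤ)) (P.coeff P.natDegree)) =
      (Fintype.card F : ℝ) ^ P.natDegree := by
    rw [absv_single (by simpa using hP), neg_neg, zpow_natCast]
  have h2 : emb F P = (∑ i ∈ Finset.range P.natDegree,
      HahnSeries.single (-(i : ℤ)) (P.coeff i)) +
      HahnSeries.single (-(P.natDegree : ℤ)) (P.coeff P.natDegree) := by
    rw [emb_eq_sum, Finset.sum_range_succ]
  by_cases hd : P.natDegree = 0
  · rw [h2, hd]
    rw [hd] at h1
    simpa using h1
  have h3 : absv (∑ i ∈ Finset.range P.natDegree,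
      HahnSeries.single (-(i : ℤ)) (P.coeff i)) ≤ (Fintype.card F : ℝ) ^ (P.natDegree - 1) := by
    apply absv_sum_le _ _ (pow_nonneg card_pos'.le _)
    intro i hi
    by_cases hc : P.coeff i = 0
    · rw [hc]
      simp only [map_zero, absv_zero]
      exact pow_nonneg card_pos'.le _
    · rw [absv_single hc, neg_neg, zpow_natCast]
      apply pow_le_pow_right₀ one_lt_card.le
      have := Finset.mem_range.mp hi
      omega
  have h4 : (Fintype.card F : ℝ) ^ (P.natDegree - 1) < (Fintype.card F : ℝ) ^ P.natDegree :=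
    pow_lt_pow_right₀ one_lt_card (by omega)
  apply le_antisymm
  · rw [h2]
    refine (absv_add_le _ _).trans (max_le (h3.trans h4.le) h1.le)
  · rw [← h1]
    apply absv_le_of_sub_lt
    have h5 : HahnSeries.single (-(P.natDegree : ℤ)) (P.coeff P.natDegree) - emb F P =
        -(∑ i ∈ Finset.range P.natDegree, HahnSeries.single (-(i : ℤ)) (P.coeff i)) := by
      rw [h2]
      ring
    rw [h5, absv_neg, h1]
    exact lt_of_le_of_lt h3 h4

theorem one_le_absv_emb {P : F[X]} (hP : P ≠ 0) : 1 ≤ absv (emb F P) := by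
  rw [absv_emb hP]
  exact one_le_pow₀ one_lt_card.le

theorem emb_injective : Function.Injective (emb F) := by
  rw [injective_iff_map_eq_zero]
  intro P hP
  by_contra hne
  have := one_le_absv_emb hne
  rw [hP, absv_zero] at this
  linarith

/-! ### Heights -/

theorem bddAbove_coeff (A : F[X][X]) : BddAbove (Set.range fun i : ℕ => absv (emb F (A.coeff i))) := by
  refine ⟨∑ i ∈ Finset.range (A.natDegree + 1), absv (emb F (A.coeff i)), ?_⟩
  rintro _ ⟨i, rfl⟩
  by_cases hi : i ∈ Finset.range (A.natDegree + 1)
  · exact Finset.single_le_sum (f := fun i => absv (emb F (A.coeff i)))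
      (fun j _ => absv_nonneg _) hi
  · have : A.coeff i = 0 := coeff_eq_zero_of_natDegree_lt (by simpa using hi)
    simp only [this, map_zero, absv_zero]
    exact Finset.sum_nonneg fun j _ => absv_nonneg _

theorem absv_coeff_le (A : F[X][X]) (i : ℕ) : absv (emb F (A.coeff i)) ≤ height A :=
  le_ciSup (bddAbove_coeff A) i

theorem height_nonneg (A : F[X][X]) : 0 ≤ height A :=
  (absv_nonneg _).trans (absv_coeff_le A 0)

theorem one_le_height {A : F[X][X]} (hA : A ≠ 0) : 1 ≤ height A := by
  refine le_trans ?_ (absv_coeff_le A A.natDegree)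
  apply one_le_absv_emb
  simpa using hA

/-- The height is a power of `q`. -/
theorem height_eq_pow {A : F[X][X]} (hA : A ≠ 0) :
    ∃ e : ℕ, height A = (Fintype.card F : ℝ) ^ e := by
  obtain ⟨i, hi⟩ : ∃ i : ℕ, height A = absv (emb F (A.coeff i)) := by
    obtain ⟨i, -, hi⟩ := Finset.exists_max_image (Finset.range (A.natDegree + 1))
      (fun i => absv (emb F (A.coeff i))) ⟨0, by simp⟩
    refine ⟨i, le_antisymm (ciSup_le fun j => ?_) (absv_coeff_le A i)⟩
    by_cases hj : j ∈ Finset.range (A.natDegree + 1)
    · exact hi j hj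
    · have : A.coeff j = 0 := coeff_eq_zero_of_natDegree_lt (by simpa using hj)
      simp only [this, map_zero, absv_zero]
      exact absv_nonneg _
  have h0 : A.coeff i ≠ 0 := by
    intro h
    rw [h, map_zero, absv_zero] at hi
    have := one_le_height hA
    linarith
  exact ⟨_, hi.trans (absv_emb h0)⟩

/-- Evaluation of a polynomial of `F[T][X]` at a series. -/
noncomputable def ev (A : F[X][X]) (x : LaurentSeries F) : LaurentSeries F := A.eval₂ (emb F) x

theorem absv_pow_sub_pow_le {x y : LaurentSeries F} (hx : absv x ≤ 1) (hy : absv y ≤ 1) (i : ℕ) :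
    absv (x ^ i - y ^ i) ≤ absv (x - y) := by
  induction i with
  | zero =>
    simp only [pow_zero, sub_self, absv_zero]
    exact absv_nonneg _
  | succ i ih =>
    have h : x ^ (i + 1) - y ^ (i + 1) = x * (x ^ i - y ^ i) + (x - y) * y ^ i := by ring
    rw [h]
    refine (absv_add_le _ _).trans (max_le ?_ ?_)
    · rw [absv_mul]
      calc absv x * absv (x ^ i - y ^ i) ≤ 1 * absv (x - y) :=
            mul_le_mul hx ih (absv_nonneg _) zero_le_one
        _ = _ := one_mul _
    · rw [absv_mul, absv_pow]
      calc absv (x - y) * absv y ^ i ≤ absv (x - y) * 1 :=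
            mul_le_mul_of_nonneg_left (pow_le_one₀ (absv_nonneg _) hy) (absv_nonneg _)
        _ = _ := mul_one _

theorem ev_eq_sum (A : F[X][X]) (x : LaurentSeries F) {n : ℕ} (hn : A.natDegree ≤ n) :
    ev A x = ∑ i ∈ Finset.range (n + 1), emb F (A.coeff i) * x ^ i :=
  eval₂_eq_sum_range' _ (by omega) _

/-- `|A(x) - A(y)| ≤ H(A) |x - y|` on the unit ball. -/
theorem absv_ev_sub_le (A : F[X][X]) {x y : LaurentSeries F} (hx : absv x ≤ 1)
    (hy : absv y ≤ 1) : absv (ev A x - ev A y) ≤ height A * absv (x - y) := by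
  rw [ev_eq_sum A x le_rfl, ev_eq_sum A y le_rfl, ← Finset.sum_sub_distrib]
  apply absv_sum_le _ _ (mul_nonneg (height_nonneg A) (absv_nonneg _))
  intro i _
  rw [← mul_sub, absv_mul]
  exact mul_le_mul (absv_coeff_le A i) (absv_pow_sub_pow_le hx hy i) (absv_nonneg _)
    (height_nonneg A)

/-- Liouville's lower bound at a rational point `x = P / Q`. -/
theorem lower_rat {A : F[X][X]} {n : ℕ} (hn : A.natDegree ≤ n) {P Q : F[X]}
    {x : LaurentSeries F} (hQx : emb F Q * x = emb F P) (hne : ev A x ≠ 0) (hQ : Q ≠ 0) :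
    1 ≤ absv (emb F Q) ^ n * absv (ev A x) := by
  have h1 : emb F Q ^ n * ev A x =
      emb F (∑ i ∈ Finset.range (n + 1), A.coeff i * (P ^ i * Q ^ (n - i))) := by
    rw [ev_eq_sum A x hn, Finset.mul_sum, map_sum]
    apply Finset.sum_congr rfl
    intro i hi
    have hin : i ≤ n := by
      have := Finset.mem_range.mp hi
      omega
    rw [map_mul, map_mul, map_pow, map_pow, ← hQx, mul_pow]
    have h2 : emb F Q ^ n = emb F Q ^ i * emb F Q ^ (n - i) := by
      rw [← pow_add]
      congr 1
      omega
    rw [h2]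
    ring
  have hQe : emb F Q ≠ 0 := by
    rw [Ne, ← map_zero (emb F)]
    exact fun h => hQ (emb_injective h)
  rw [← absv_pow, ← absv_mul, h1]
  apply one_le_absv_emb
  intro h0
  rw [h0, map_zero] at h1
  exact mul_ne_zero (pow_ne_zero _ hQe) hne h1

end Pool.Agent.V11270.LS
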