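import Pool.Agent.V11270.LS.RatRoot

/-!
# Mahler's series `∑ T ^ (-p ^ j)`
-/

set_option autoImplicit false
set_option linter.unusedSectionVars false

open Polynomial

namespace Pool.Agent.V11270.LS

variable (p : ℕ) [hp : Fact p.Prime]

/-- Mahler's series `T⁻¹ + T^(-p) + T^(-p²) + ⋯` over `ZMod p`: the coefficient at `T^(-n)` is `1`
if `n = p ^ j` for some natural `j`, and `0` otherwise. -/
noncomputable def mahler : LaurentSeries (ZMod p) :=
  HahnSeries.ofSuppBddBelow
    (fun n : ℤ => open Classical in if ∃ j : ℕ, n = (p : ℤ) ^ j then (1 : ZMod p) else 0) (by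
      refine ⟨0, fun n hn => ?_⟩
      by_contra hlt
      push Not at hlt
      rw [Function.mem_support] at hn
      apply hn
      rw [if_neg]
      rintro ⟨j, rfl⟩
      have : (0 : ℤ) ≤ (p : ℤ) ^ j := by positivity
      omega)

/-- Partial sums. -/
noncomputable def psum (k : ℕ) : LaurentSeries (ZMod p) :=
  ∑ j ∈ Finset.range (k + 1), HahnSeries.single ((p : ℤ) ^ j) (1 : ZMod p)

variable {p}

theorem coeff_mahler (n : ℤ) : (mahler p).coeff n =
    open Classical in if ∃ j : ℕ, n = (p : ℤ) ^ j then (1 : ZMod p) else 0 := rfl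

theorem pow_inj' {i j : ℕ} (h : (p : ℤ) ^ i = (p : ℤ) ^ j) : i = j := by
  have h1 : p ^ i = p ^ j := by exact_mod_cast h
  exact Nat.pow_right_injective hp.out.two_le h1

theorem coeff_psum (k : ℕ) (n : ℤ) : (psum p k).coeff n =
    open Classical in if ∃ j : ℕ, j ≤ k ∧ n = (p : ℤ) ^ j then (1 : ZMod p) else 0 := by
  classical
  unfold psum
  rw [HahnSeries.coeff_sum]
  simp only [HahnSeries.coeff_single]
  by_cases h : ∃ j : ℕ, j ≤ k ∧ n = (p : ℤ) ^ j
  · rw [if_pos h]
    obtain ⟨j, hj, rfl⟩ := h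
    rw [Finset.sum_eq_single j]
    · rw [if_pos rfl]
    · intro i _ hij
      rw [if_neg]
      intro h
      exact hij (pow_inj' h).symm
    · intro hj'
      exact absurd (Finset.mem_range.mpr (by omega)) hj'
  · rw [if_neg h]
    apply Finset.sum_eq_zero
    intro i hi
    rw [if_neg]
    intro hn
    exact h ⟨i, by have := Finset.mem_range.mp hi; omega, hn⟩

theorem coeff_sub_psum (k : ℕ) (n : ℤ) : (mahler p - psum p k).coeff n =
    open Classical in if ∃ j : ℕ, k < j ∧ n = (p : ℤ) ^ j then (1 : ZMod p) else 0 := by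
  classical
  rw [HahnSeries.coeff_sub, coeff_mahler, coeff_psum]
  by_cases h1 : ∃ j : ℕ, k < j ∧ n = (p : ℤ) ^ j
  · obtain ⟨j, hj, rfl⟩ := h1
    have h2 : ¬ ∃ i : ℕ, i ≤ k ∧ (p : ℤ) ^ j = (p : ℤ) ^ i := by
      rintro ⟨i, hi, hij⟩
      have := pow_inj' hij
      omega
    rw [if_pos ⟨j, rfl⟩, if_neg h2, if_pos ⟨j, hj, rfl⟩, sub_zero]
  · rw [if_neg h1]
    by_cases h2 : ∃ j : ℕ, n = (p : ℤ) ^ j
    · obtain ⟨j, rfl⟩ := h2
      rw [if_pos ⟨j, rfl⟩, if_pos, sub_self]
      refine ⟨j, ?_, rfl⟩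
      by_contra hlt
      exact h1 ⟨j, by omega, rfl⟩
    · rw [if_neg h2, if_neg, sub_zero]
      rintro ⟨j, _, hj⟩
      exact h2 ⟨j, hj⟩

theorem sub_psum_ne (k : ℕ) : mahler p - psum p k ≠ 0 := by
  intro h
  have h1 := coeff_sub_psum (p := p) k ((p : ℤ) ^ (k + 1))
  rw [h, if_pos ⟨k + 1, by omega, rfl⟩] at h1
  simp at h1

theorem absv_sub_psum (k : ℕ) :
    absv (mahler p - psum p k) = ((p : ℝ) ^ (p ^ (k + 1)))⁻¹ := by
  have hord : (mahler p - psum p k).order = (p : ℤ) ^ (k + 1) := by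
    apply le_antisymm
    · apply HahnSeries.order_le_of_coeff_ne_zero
      rw [coeff_sub_psum, if_pos ⟨k + 1, by omega, rfl⟩]
      exact one_ne_zero
    · rw [HahnSeries.le_order_iff_forall (sub_psum_ne k)]
      intro j hj
      rw [coeff_sub_psum, if_neg]
      rintro ⟨i, hi, rfl⟩
      have h1 : (p : ℤ) ^ (k + 1) ≤ (p : ℤ) ^ i :=
        pow_le_pow_right₀ (by exact_mod_cast hp.out.one_lt.le) hi
      omega
  rw [absv_of_ne (sub_psum_ne k), hord, ZMod.card, zpow_neg]
  congr 1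

theorem absv_psum_le (k : ℕ) : absv (psum p k) ≤ 1 := by
  unfold psum
  apply absv_sum_le _ _ zero_le_one
  intro j _
  rw [absv_single one_ne_zero, ZMod.card, zpow_neg]
  apply inv_le_one_of_one_le₀
  have h1 : ((p : ℤ) ^ j) = ((p ^ j : ℕ) : ℤ) := by push_cast; rfl
  rw [h1, zpow_natCast]
  exact one_le_pow₀ (by exact_mod_cast hp.out.one_lt.le)

theorem absv_mahler_le : absv (mahler p) ≤ 1 := by
  have h1 : mahler p = (mahler p - psum p 0) + psum p 0 := by ring
  rw [h1]
  refine (absv_add_le _ _).trans (max_le ?_ (absv_psum_le 0))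
  rw [absv_sub_psum]
  apply inv_le_one_of_one_le₀
  exact one_le_pow₀ (by exact_mod_cast hp.out.one_lt.le)

/-! ### Numerators and denominators of the partial sums -/

variable (p) in
/-- Numerator. -/
noncomputable def num (k : ℕ) : (ZMod p)[X] := ∑ j ∈ Finset.range (k + 1), X ^ (p ^ k - p ^ j)

theorem emb_den_mul (k : ℕ) : emb (ZMod p) (X ^ (p ^ k)) * psum p k = emb (ZMod p) (num p k) := by
  unfold psum num
  rw [Finset.mul_sum, map_sum]
  apply Finset.sum_congr rfl
  intro j hj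
  rw [emb_X_pow, emb_X_pow, HahnSeries.single_mul_single, one_mul]
  have hjk : p ^ j ≤ p ^ k := by
    apply Nat.pow_le_pow_right hp.out.pos
    have := Finset.mem_range.mp hj
    omega
  have h : -((p ^ k : ℕ) : ℤ) + (p : ℤ) ^ j = -((p ^ k - p ^ j : ℕ) : ℤ) := by
    push_cast [Nat.cast_sub hjk]
    ring
  rw [h]

theorem coprime_num (k : ℕ) : IsCoprime (num p k) (X ^ (p ^ k) : (ZMod p)[X]) := by
  apply IsCoprime.pow_right
  rw [isCoprime_comm, irreducible_X.coprime_iff_not_dvd, X_dvd_iff]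
  unfold num
  rw [finsetSum_coeff, Finset.sum_range_succ]
  simp only [coeff_X_pow]
  have h1 : ∀ j ∈ Finset.range k, (if 0 = p ^ k - p ^ j then (1 : ZMod p) else 0) = 0 := by
    intro j hj
    rw [if_neg]
    have : p ^ j < p ^ k := Nat.pow_lt_pow_right hp.out.one_lt (Finset.mem_range.mp hj)
    omega
  rw [Finset.sum_eq_zero h1]
  simp

theorem absv_den (k : ℕ) : absv (emb (ZMod p) (X ^ (p ^ k))) = (p : ℝ) ^ (p ^ k) := by
  rw [absv_emb (pow_ne_zero _ X_ne_zero), natDegree_X_pow, ZMod.card]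

/-! ### The algebraic equation -/

theorem mahler_pow : (mahler p) ^ p = mahler p - HahnSeries.single (1 : ℤ) (1 : ZMod p) := by
  have hchar : CharP (LaurentSeries (ZMod p)) p :=
    charP_of_injective_algebraMap (algebraMap (ZMod p) (LaurentSeries (ZMod p))).injective p
  have hpsum : ∀ k, (psum p k) ^ p = psum p (k + 1) - HahnSeries.single (1 : ℤ) (1 : ZMod p) := by
    intro k
    unfold psum
    rw [sum_pow_char, Finset.sum_range_succ' _ (k + 1)]
    have h1 : ∀ j, (HahnSeries.single ((p : ℤ) ^ j) (1 : ZMod p)) ^ p =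
        HahnSeries.single ((p : ℤ) ^ (j + 1)) (1 : ZMod p) := by
      intro j
      have h2 : p • ((p : ℤ) ^ j) = (p : ℤ) ^ (j + 1) := by
        rw [nsmul_eq_mul, pow_succ, mul_comm]
      rw [HahnSeries.single_pow, one_pow, h2]
    simp only [h1, pow_zero]
    ring
  by_contra hne
  have hne' : (mahler p) ^ p - (mahler p - HahnSeries.single (1 : ℤ) (1 : ZMod p)) ≠ 0 :=
    sub_ne_zero.mpr hne
  have hpos := absv_pos hne'
  have hp1 : (1 : ℝ) < p := by exact_mod_cast hp.out.one_lt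
  have hbound : ∀ k : ℕ, absv ((mahler p) ^ p -
      (mahler p - HahnSeries.single (1 : ℤ) (1 : ZMod p))) ≤ ((p : ℝ) ^ k)⁻¹ := by
    intro k
    have h1 : (mahler p) ^ p - (mahler p - HahnSeries.single (1 : ℤ) (1 : ZMod p)) =
        (mahler p - psum p k) ^ p - (mahler p - psum p (k + 1)) := by
      rw [sub_pow_char, hpsum]
      ring
    have hk : k ≤ p ^ (k + 1) := (Nat.lt_pow_self hp.out.one_lt).le.trans
      (Nat.pow_le_pow_right hp.out.pos (Nat.le_succ k))
    have hk2 : k ≤ p ^ (k + 2) := hk.trans (Nat.pow_le_pow_right hp.out.pos (Nat.le_succ _))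
    rw [h1]
    refine (absv_sub_le _ _).trans (max_le ?_ ?_)
    · rw [absv_pow, absv_sub_psum, inv_pow, ← pow_mul]
      apply inv_anti₀ (by positivity)
      apply pow_le_pow_right₀ hp1.le
      exact hk.trans (Nat.le_mul_of_pos_right _ hp.out.pos)
    · rw [absv_sub_psum]
      apply inv_anti₀ (by positivity)
      exact pow_le_pow_right₀ hp1.le hk2
  obtain ⟨k, hk⟩ := exists_pow_lt_of_lt_one hpos (inv_lt_one_of_one_lt₀ hp1)
  rw [inv_pow] at hk
  exact absurd (hbound k) (not_le.mpr hk)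

/-- The polynomial `T X ^ p - T X + 1`. -/
noncomputable def mpoly (p : ℕ) : (ZMod p)[X][X] := C X * X ^ p - C X * X + 1

theorem ev_mpoly : ev (mpoly p) (mahler p) = 0 := by
  unfold ev mpoly
  rw [eval₂_add, eval₂_sub, eval₂_mul, eval₂_mul, eval₂_C, eval₂_pow, eval₂_X, eval₂_one,
    mahler_pow, emb_X]
  have : (HahnSeries.single (-1 : ℤ) (1 : ZMod p)) * HahnSeries.single (1 : ℤ) (1 : ZMod p) = 1 := by
    rw [HahnSeries.single_mul_single]
    simp
  linear_combination -this

theorem mpoly_ne_zero : mpoly p ≠ 0 := by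
  intro h
  have h1 := congrArg (Polynomial.eval 0) h
  simp [mpoly, hp.out.ne_zero] at h1

/-- Every irreducible polynomial vanishing at Mahler's series has degree at least `p`. -/
theorem le_natDegree {A : (ZMod p)[X][X]} (hA : Irreducible A) (hev : ev A (mahler p) = 0) :
    p ≤ A.natDegree := by
  by_contra hlt
  push Not at hlt
  have hp1 : (1 : ℝ) < p := by exact_mod_cast hp.out.one_lt
  set m := A.natDegree with hm
  have hbound : ∀ k : ℕ, (p : ℝ) ^ k ≤ height A := by
    intro k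
    have hne : ev A (psum p k) ≠ 0 := by
      intro h0
      have := (of_rat_root hA (coprime_num k) (pow_ne_zero _ X_ne_zero) (emb_den_mul k) h0).1
        (mahler p) hev
      exact sub_psum_ne k (sub_eq_zero.mpr this)
    have h1 := lower_rat (n := m) le_rfl (emb_den_mul k) hne (pow_ne_zero _ X_ne_zero)
    have h2 : absv (ev A (psum p k)) ≤ height A * absv (mahler p - psum p k) := by
      have := absv_ev_sub_le A (absv_mahler_le (p := p)) (absv_psum_le k)
      rwa [hev, zero_sub, absv_neg] at this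
    rw [absv_den] at h1
    rw [absv_sub_psum] at h2
    have hpk : (0 : ℝ) < (p : ℝ) ^ (p ^ (k + 1)) := by positivity
    have h3 : 1 ≤ ((p : ℝ) ^ (p ^ k)) ^ m * (height A * ((p : ℝ) ^ (p ^ (k + 1)))⁻¹) :=
      h1.trans (mul_le_mul_of_nonneg_left h2 (by positivity))
    have h4 : (p : ℝ) ^ (p ^ (k + 1)) ≤ ((p : ℝ) ^ (p ^ k)) ^ m * height A := by
      rw [← mul_assoc, ← div_eq_mul_inv, le_div_iff₀ hpk, one_mul] at h3
      exact h3
    have h5 : ((p : ℝ) ^ (p ^ k)) ^ m * (p : ℝ) ^ k ≤ (p : ℝ) ^ (p ^ (k + 1)) := by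
      rw [← pow_mul, ← pow_add]
      apply pow_le_pow_right₀ hp1.le
      have h6 : k ≤ p ^ k := (Nat.lt_pow_self hp.out.one_lt).le
      calc p ^ k * m + k ≤ p ^ k * m + p ^ k := by omega
        _ = p ^ k * (m + 1) := by ring
        _ ≤ p ^ k * p := Nat.mul_le_mul_left _ hlt
        _ = p ^ (k + 1) := (pow_succ p k).symm
    exact le_of_mul_le_mul_left (h5.trans h4) (by positivity)
  obtain ⟨k, hk⟩ := pow_unbounded_of_one_lt (height A) hp1
  exact absurd (hbound k) (not_le.mpr hk)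

end Pool.Agent.V11270.LS
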