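import Pool.Agent.V11270.LS.Basic

/-!
# Rational roots of irreducible polynomials over `F[T]`
-/

set_option autoImplicit false
set_option linter.unusedSectionVars false

open Polynomial

namespace Pool.Agent.V11270.LS

theorem natDegree_linear {R : Type*} [CommRing R] [IsDomain R] {P Q : R} (hQ : Q ≠ 0) :
    (C Q * X - C P : R[X]).natDegree = 1 := by
  rw [natDegree_sub_C, natDegree_C_mul_X Q hQ]

theorem irreducible_linear {R : Type*} [CommRing R] [IsDomain R] {P Q : R} (h : IsCoprime P Q)
    (hQ : Q ≠ 0) : Irreducible (C Q * X - C P : R[X]) := by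
  have hdeg : (C Q * X - C P : R[X]).natDegree = 1 := natDegree_linear hQ
  have key : ∀ a : R[X], a ∣ (C Q * X - C P : R[X]) → a.natDegree = 0 → IsUnit a := by
    intro a ha ha0
    rw [eq_C_of_natDegree_eq_zero ha0] at ha ⊢
    rw [C_dvd_iff_dvd_coeff] at ha
    have h1 := ha 1
    have h0 := ha 0
    simp at h1 h0
    exact isUnit_C.mpr (h.isUnit_of_dvd' h0 h1)
  constructor
  · intro hu
    have := natDegree_eq_zero_of_isUnit hu
    omega
  · intro a b hab
    have hne : (C Q * X - C P : R[X]) ≠ 0 := by
      intro h0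
      rw [h0] at hdeg
      simp at hdeg
    have ha : a ≠ 0 := by
      rintro rfl
      rw [zero_mul] at hab
      exact hne hab
    have hb : b ≠ 0 := by
      rintro rfl
      rw [mul_zero] at hab
      exact hne hab
    have h1 : a.natDegree + b.natDegree = 1 := by
      rw [← natDegree_mul ha hb, ← hab, hdeg]
    rcases Nat.eq_zero_or_pos a.natDegree with h2 | h2
    · exact Or.inl (key a (Dvd.intro b hab.symm) h2)
    · exact Or.inr (key b (Dvd.intro_left a hab.symm) (by omega))

variable {F : Type} [Field F] [Fintype F]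

/-- If an irreducible `A` vanishes at a rational point `x = P / Q`, `P`, `Q` coprime, then
`Q X - P` divides `A`. -/
theorem linear_dvd {A : F[X][X]} {P Q : F[X]} (h : IsCoprime P Q) (hQ : Q ≠ 0)
    {x : LaurentSeries F} (hx : emb F Q * x = emb F P) (hAx : ev A x = 0) :
    (C Q * X - C P : F[X][X]) ∣ A := by
  set n := A.natDegree with hn
  set L : F[X][X] := C Q * X - C P with hL
  have hLirr : Irreducible L := irreducible_linear h hQ
  have hLdeg : L.natDegree = 1 := natDegree_linear hQ
  -- the value at `P / Q` vanishes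
  have h0 : ∑ i ∈ Finset.range (n + 1), A.coeff i * (P ^ i * Q ^ (n - i)) = 0 := by
    apply emb_injective
    rw [map_zero, map_sum]
    have h1 : emb F Q ^ n * ev A x = ∑ i ∈ Finset.range (n + 1),
        emb F (A.coeff i * (P ^ i * Q ^ (n - i))) := by
      rw [ev_eq_sum A x le_rfl, Finset.mul_sum]
      apply Finset.sum_congr rfl
      intro i hi
      have hin : i ≤ n := by
        have := Finset.mem_range.mp hi
        omega
      rw [map_mul, map_mul, map_pow, map_pow, ← hx, mul_pow]
      have h2 : emb F Q ^ n = emb F Q ^ i * emb F Q ^ (n - i) := by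
        rw [← pow_add]
        congr 1
        omega
      rw [h2]
      ring
    rw [← h1, hAx, mul_zero]
  have h1 : L ∣ C Q ^ n * A := by
    have h2 : C Q ^ n * A = ∑ i ∈ Finset.range (n + 1),
        C (A.coeff i) * C Q ^ (n - i) * ((C Q * X) ^ i - (C P) ^ i) := by
      have h3 : C Q ^ n * A = ∑ i ∈ Finset.range (n + 1),
          C (A.coeff i) * C Q ^ (n - i) * (C Q * X) ^ i := by
        conv_lhs => rw [A.as_sum_range_C_mul_X_pow, Finset.mul_sum]
        apply Finset.sum_congr rfl
        intro i hi
        have hin : i ≤ n := by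
          have := Finset.mem_range.mp hi
          omega
        have h4 : (C Q : F[X][X]) ^ n = C Q ^ i * C Q ^ (n - i) := by
          rw [← pow_add]
          congr 1
          omega
        rw [h4, mul_pow]
        ring
      have h5 : ∑ i ∈ Finset.range (n + 1), C (A.coeff i) * C Q ^ (n - i) * (C P : F[X][X]) ^ i =
          0 := by
        have h6 : ∑ i ∈ Finset.range (n + 1), C (A.coeff i) * C Q ^ (n - i) * (C P : F[X][X]) ^ i
            = C (∑ i ∈ Finset.range (n + 1), A.coeff i * (P ^ i * Q ^ (n - i))) := by
          rw [map_sum]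
          apply Finset.sum_congr rfl
          intro i _
          rw [C_mul, C_mul, C_pow, C_pow]
          ring
        rw [h6, h0, C_0]
      rw [h3]
      simp only [mul_sub]
      rw [Finset.sum_sub_distrib, h5, sub_zero]
    rw [h2]
    apply Finset.dvd_sum
    intro i _
    exact Dvd.dvd.mul_left (sub_dvd_pow_sub_pow _ _ _) _
  have hprime : Prime L := hLirr.prime
  rcases hprime.dvd_or_dvd h1 with h2 | h2
  · exfalso
    have h3 : L ∣ C Q := hprime.dvd_of_dvd_pow h2
    have h4 := natDegree_le_of_dvd h3 (by simpa using hQ)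
    rw [hLdeg, natDegree_C] at h4
    omega
  · exact h2

theorem ev_mul (A B : F[X][X]) (x : LaurentSeries F) : ev (A * B) x = ev A x * ev B x :=
  eval₂_mul _ _

theorem ev_linear (P Q : F[X]) (x : LaurentSeries F) :
    ev (C Q * X - C P : F[X][X]) x = emb F Q * x - emb F P := by
  unfold ev
  rw [eval₂_sub, eval₂_mul, eval₂_C, eval₂_X, eval₂_C]

/-- Consequences: the only root of `A` is `x`, and the height of `A` is at least `|Q|`. -/
theorem of_rat_root {A : F[X][X]} (hA : Irreducible A) {P Q : F[X]} (h : IsCoprime P Q)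
    (hQ : Q ≠ 0) {x : LaurentSeries F} (hx : emb F Q * x = emb F P) (hAx : ev A x = 0) :
    (∀ y, ev A y = 0 → y = x) ∧ absv (emb F Q) ≤ height A := by
  have hdvd := linear_dvd h hQ hx hAx
  have hQe : emb F Q ≠ 0 := by
    rw [Ne, ← map_zero (emb F)]
    exact fun h => hQ (emb_injective h)
  constructor
  · intro y hy
    have h1 : A ∣ (C Q * X - C P : F[X][X]) :=
      (irreducible_linear h hQ).dvd_symm hA hdvd
    obtain ⟨B, hB⟩ := h1
    have h2 : ev (C Q * X - C P : F[X][X]) y = 0 := by
      rw [hB, ev_mul, hy, zero_mul]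
    rw [ev_linear, sub_eq_zero, ← hx] at h2
    exact mul_left_cancel₀ hQe h2
  · obtain ⟨B, hB⟩ := hdvd
    have hB0 : B ≠ 0 := by
      rintro rfl
      rw [mul_zero] at hB
      exact hA.ne_zero hB
    have h1 : A.leadingCoeff = Q * B.leadingCoeff := by
      rw [hB, leadingCoeff_mul]
      congr 1
      rw [leadingCoeff, natDegree_linear hQ]
      simp
    have h2 : absv (emb F A.leadingCoeff) ≤ height A := absv_coeff_le A A.natDegree
    rw [h1, map_mul, absv_mul] at h2
    have h3 : 1 ≤ absv (emb F B.leadingCoeff) :=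
      one_le_absv_emb (leadingCoeff_ne_zero.mpr hB0)
    calc absv (emb F Q) = absv (emb F Q) * 1 := (mul_one _).symm
      _ ≤ absv (emb F Q) * absv (emb F B.leadingCoeff) :=
        mul_le_mul_of_nonneg_left h3 (absv_nonneg _)
      _ ≤ height A := h2

/-- A root of a nonzero polynomial is a root of an irreducible one. -/
theorem exists_irreducible_root {B : F[X][X]} (hB : B ≠ 0) {x : LaurentSeries F}
    (hx : ev B x = 0) : ∃ A : F[X][X], Irreducible A ∧ ev A x = 0 := by
  induction B using WfDvdMonoid.induction_on_irreducible with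
  | zero => exact absurd rfl hB
  | unit u hu =>
    exfalso
    have h1 : IsUnit (ev u x) := hu.map (eval₂RingHom (emb F) x)
    rw [hx] at h1
    exact not_isUnit_zero h1
  | mul a i ha hi ih =>
    rw [ev_mul] at hx
    rcases mul_eq_zero.mp hx with h | h
    · exact ⟨i, hi, h⟩
    · exact ih ha h

end Pool.Agent.V11270.LS
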